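import Pool.Agent.MP_1c0426_nt.Energy

/-! The number of near coincidences of a `B_h` set, from above and from below. -/

set_option autoImplicit false

namespace Pool.Agent.MP_1c0426_nt

open Finset Complex
open scoped ComplexConjugate

/-- left family -/
abbrev famX (k u : ℕ) (A : Finset ℕ) : Finset ((Fin k → ℕ) × ℕ) := tup k A ×ˢ range u
/-- right family -/
abbrev famY (l r u : ℕ) (A : Finset ℕ) : Finset (((Fin l → ℕ) × (Fin r → ℕ)) × ℕ) :=
  (tup l A ×ˢ tup r A) ×ˢ range u
/-- left weight -/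
def sigX {k : ℕ} (x : (Fin k → ℕ) × ℕ) : ℕ := ∑ i, x.1 i + x.2
/-- right weight -/
def sigY {l r : ℕ} (y : ((Fin l → ℕ) × (Fin r → ℕ)) × ℕ) : ℕ := ∑ i, y.1.1 i + ∑ i, y.1.2 i + y.2

/-- the coincidences -/
def coin (k l r u : ℕ) (A : Finset ℕ) :
    Finset (((Fin k → ℕ) × ℕ) × (((Fin l → ℕ) × (Fin r → ℕ)) × ℕ)) :=
  (famX k u A ×ˢ famY l r u A).filter (fun p => sigX p.1 = sigY p.2)

theorem mem_coin {k l r u : ℕ} {A : Finset ℕ}
    {p : ((Fin k → ℕ) × ℕ) × (((Fin l → ℕ) × (Fin r → ℕ)) × ℕ)} (hp : p ∈ coin k l r u A) :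
    p.1.1 ∈ tup k A ∧ p.1.2 ∈ range u ∧ p.2.1.1 ∈ tup l A ∧ p.2.1.2 ∈ tup r A ∧ p.2.2 ∈ range u ∧
      ∑ i, p.1.1 i + p.1.2 = ∑ i, p.2.1.1 i + ∑ i, p.2.1.2 i + p.2.2 := by
  simp only [coin, Finset.mem_filter, Finset.mem_product, sigX, sigY] at hp
  tauto

theorem card_nondeg {k l r u : ℕ} {A : Finset ℕ} (hB : IsB (k + l) A) :
    ((coin k l r u A).filter (fun p => ∀ i j, p.1.1 i ≠ p.2.1.1 j)).card ≤
      (k.factorial * l.factorial) * (A.card ^ r * u * u) := by
  classical
  have hc : ((tup r A ×ˢ range u) ×ˢ range u).card = A.card ^ r * u * u := by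
    rw [Finset.card_product, Finset.card_product, card_tup, Finset.card_range]
  rw [← hc]
  refine Finset.card_le_mul_card_image_of_maps_to (f := fun p => ((p.2.1.2, p.1.2), p.2.2)) ?_ _ ?_
  · intro p hp
    have := mem_coin (Finset.mem_filter.1 hp).1
    simp only [Finset.mem_product]
    tauto
  · intro q _
    set S := ((coin k l r u A).filter (fun p => ∀ i j, p.1.1 i ≠ p.2.1.1 j)).filter
      (fun p => ((p.2.1.2, p.1.2), p.2.2) = q) with hS
    rcases S.eq_empty_or_nonempty with h0 | ⟨p0, hp0⟩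
    · rw [h0]; simp
    have hrig : ∀ p ∈ S, (List.ofFn p.1.1 : Multiset ℕ) = (List.ofFn p0.1.1 : Multiset ℕ) ∧
        (List.ofFn p.2.1.1 : Multiset ℕ) = (List.ofFn p0.2.1.1 : Multiset ℕ) := by
      intro p hp
      rw [hS, Finset.mem_filter, Finset.mem_filter] at hp hp0
      obtain ⟨⟨h1, h2⟩, h3⟩ := hp
      obtain ⟨⟨h1', _⟩, h3'⟩ := hp0
      have m1 := mem_coin h1
      have m2 := mem_coin h1'
      have e := h3.trans h3'.symm
      simp only [Prod.mk.injEq] at e
      obtain ⟨⟨e1, e2⟩, e3⟩ := e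
      refine rigid hB m1.1 m2.1 m1.2.2.1 m2.2.2.1 h2 ?_
      have a1 := m1.2.2.2.2.2
      have a2 := m2.2.2.2.2.2
      rw [e1, e2, e3] at a1
      omega
    calc S.card ≤ ((S.image (fun p => p.1.1)) ×ˢ (S.image (fun p => p.2.1.1))).card := by
          refine Finset.card_le_card_of_injOn (fun p => (p.1.1, p.2.1.1)) (fun p hp => ?_) ?_
          · simp only [Finset.coe_product, Set.mem_prod, Finset.mem_coe]
            exact ⟨Finset.mem_image_of_mem _ hp, Finset.mem_image_of_mem _ hp⟩
          · intro p hp p' hp' e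
            rw [Finset.mem_coe, hS, Finset.mem_filter] at hp hp'
            have e2 := hp.2.trans hp'.2.symm
            simp only [Prod.mk.injEq] at e e2
            obtain ⟨⟨a, t⟩, ⟨b, c⟩, t'⟩ := p
            obtain ⟨⟨a2, t2⟩, ⟨b2, c2⟩, t2'⟩ := p'
            simp only at e e2
            obtain ⟨rfl, rfl⟩ := e
            obtain ⟨⟨rfl, rfl⟩, rfl⟩ := e2
            rfl
      _ ≤ k.factorial * l.factorial := by
          rw [Finset.card_product]
          refine Nat.mul_le_mul (card_same_multiset _ p0.1.1 ?_) (card_same_multiset _ p0.2.1.1 ?_)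
          · intro a ha
            obtain ⟨p, hp, rfl⟩ := Finset.mem_image.1 ha
            exact (hrig p hp).1
          · intro b hb
            obtain ⟨p, hp, rfl⟩ := Finset.mem_image.1 hb
            exact (hrig p hp).2

theorem card_deg_one {k l r u : ℕ} {A : Finset ℕ} (i : Fin k) (j : Fin l) :
    ((coin k l r u A).filter (fun p => p.1.1 i = p.2.1.1 j)).card ≤
      A.card ^ (k - 1) * (A.card ^ l * A.card ^ r * u) := by
  classical
  have hc : (famY l r u A).card = A.card ^ l * A.card ^ r * u := by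
    rw [Finset.card_product, Finset.card_product, card_tup, card_tup, Finset.card_range]
  rw [← hc]
  refine Finset.card_le_mul_card_image_of_maps_to (f := fun p => p.2) ?_ _ ?_
  · intro p hp
    have := mem_coin (Finset.mem_filter.1 hp).1
    simp only [Finset.mem_product]
    tauto
  · intro q _
    have hcard : (Fintype.piFinset (Function.update (fun _ : Fin k => A) i {q.1.1 j})).card =
        A.card ^ (k - 1) := by
      rw [Fintype.card_piFinset]
      have : ∀ x : Fin k, (Function.update (fun _ : Fin k => A) i {q.1.1 j} x).card =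
          Function.update (fun _ : Fin k => A.card) i 1 x := by
        intro x
        by_cases hx : x = i
        · subst hx; simp
        · simp [Function.update_of_ne hx]
      simp_rw [this]
      rw [Finset.prod_update_of_mem (Finset.mem_univ i)]
      simp [Finset.card_sdiff]
    rw [← hcard]
    refine Finset.card_le_card_of_injOn (fun p => p.1.1) (fun p hp => ?_) ?_
    · rw [Finset.mem_coe, Finset.mem_filter, Finset.mem_filter] at hp
      obtain ⟨⟨h1, h2⟩, h3⟩ := hp
      have m1 := (mem_coin h1).1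
      simp only [tup, Fintype.mem_piFinset] at m1
      rw [Finset.mem_coe, Fintype.mem_piFinset]
      intro x
      by_cases hx : x = i
      · subst hx; simp [h2, h3]
      · simp [Function.update_of_ne hx, m1 x]
    · intro p hp p' hp' e
      rw [Finset.mem_coe, Finset.mem_filter, Finset.mem_filter] at hp hp'
      have a1 := (mem_coin hp.1.1).2.2.2.2.2
      have a2 := (mem_coin hp'.1.1).2.2.2.2.2
      have e2 := hp.2.trans hp'.2.symm
      obtain ⟨⟨a, t⟩, y⟩ := p
      obtain ⟨⟨a2, t2⟩, y2⟩ := p'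
      simp only at e e2 a1 a2
      subst e e2
      have : t = t2 := by omega
      rw [this]

theorem card_coin_le {k l r u : ℕ} {A : Finset ℕ} (hB : IsB (k + l) A) :
    (coin k l r u A).card ≤ (k.factorial * l.factorial) * (A.card ^ r * u * u) +
      k * l * (A.card ^ (k - 1) * (A.card ^ l * A.card ^ r * u)) := by
  classical
  rw [← Finset.card_filter_add_card_filter_not (s := coin k l r u A)
    (fun p => ∀ i j, p.1.1 i ≠ p.2.1.1 j)]
  refine Nat.add_le_add (card_nondeg hB) ?_
  calc _ ≤ ((Finset.univ : Finset (Fin k × Fin l)).biUnion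
        (fun ij => (coin k l r u A).filter (fun p => p.1.1 ij.1 = p.2.1.1 ij.2))).card := by
        refine Finset.card_le_card fun p hp => ?_
        rw [Finset.mem_filter] at hp
        obtain ⟨h1, h2⟩ := hp
        push Not at h2
        obtain ⟨i, j, hij⟩ := h2
        exact Finset.mem_biUnion.2 ⟨(i, j), Finset.mem_univ _, Finset.mem_filter.2 ⟨h1, hij⟩⟩
    _ ≤ ∑ ij : Fin k × Fin l,
          ((coin k l r u A).filter (fun p => p.1.1 ij.1 = p.2.1.1 ij.2)).card :=
        Finset.card_biUnion_le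
    _ ≤ ∑ _ij : Fin k × Fin l, A.card ^ (k - 1) * (A.card ^ l * A.card ^ r * u) :=
        Finset.sum_le_sum fun ij _ => card_deg_one ij.1 ij.2
    _ = _ := by simp

theorem sum_le_of_mem_tup {k n : ℕ} {A : Finset ℕ} (hA : A ⊆ Icc 1 n) {a : Fin k → ℕ}
    (ha : a ∈ tup k A) : ∑ i, a i ≤ k * n := by
  simp only [tup, Fintype.mem_piFinset] at ha
  calc ∑ i, a i ≤ ∑ _i : Fin k, n :=
        Finset.sum_le_sum fun i _ => (Finset.mem_Icc.1 (hA (ha i))).2
    _ = k * n := by simp

/-- exact formula for the number of coincidences -/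
theorem card_coin_eq {k l r u n : ℕ} (hk : l + r = k) {A : Finset ℕ} (hA : A ⊆ Icc 1 n) (J : ℕ) :
    ((k * n + u : ℕ) : ℝ) * (coin k l r u A).card =
      ∑ s ∈ range (k * n + u), ‖∑ x ∈ A, ee (k * n + u) (((s : ℝ) - J) * x)‖ ^ (2 * k) *
        ‖∑ t ∈ range u, ee (k * n + u) (((s : ℝ) - J) * t)‖ ^ 2 := by
  set M := k * n + u with hM
  have h := energy (famX k u A) (famY l r u A) sigX sigY (M := M) J (by
    intro x hx y hy
    simp only [Finset.mem_product, Finset.mem_range] at hx hy
    have h1 := sum_le_of_mem_tup hA hx.1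
    have h2 := sum_le_of_mem_tup hA hy.1.1
    have h3 := sum_le_of_mem_tup hA hy.1.2
    have h4 : l * n + r * n = k * n := by rw [← hk]; ring
    have b1 : sigX x < M := by unfold sigX; omega
    have b2 : sigY y < M := by unfold sigY; omega
    rw [abs_lt]
    constructor <;> omega)
  have eX : ∀ ξ : ℝ, ∑ x ∈ famX k u A, ee M (ξ * sigX x) =
      (∑ x ∈ A, ee M (ξ * x)) ^ k * ∑ t ∈ range u, ee M (ξ * t) := by
    intro ξ
    rw [← sum_tup, Finset.sum_mul_sum, Finset.sum_product]
    refine Finset.sum_congr rfl fun a _ => Finset.sum_congr rfl fun t _ => ?_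
    rw [← ee_add]
    congr 1
    simp only [sigX]
    push_cast
    ring
  have eY : ∀ ξ : ℝ, ∑ y ∈ famY l r u A, ee M (ξ * sigY y) =
      (∑ x ∈ A, ee M (ξ * x)) ^ k * ∑ t ∈ range u, ee M (ξ * t) := by
    intro ξ
    rw [← hk, pow_add, ← sum_tup, ← sum_tup, Finset.sum_mul_sum, Finset.sum_product,
      Finset.sum_product, Finset.sum_mul]
    refine Finset.sum_congr rfl fun b _ => ?_
    rw [Finset.sum_mul]
    refine Finset.sum_congr rfl fun c _ => ?_
    rw [Finset.mul_sum]
    refine Finset.sum_congr rfl fun t _ => ?_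
    rw [← ee_add, ← ee_add]
    congr 1
    simp only [sigY]
    push_cast
    ring
  simp_rw [eX, eY, Complex.mul_conj'] at h
  have h' : (((M : ℝ) * (coin k l r u A).card : ℝ) : ℂ) =
      ((∑ s ∈ range M, ‖∑ x ∈ A, ee M (((s : ℝ) - J) * x)‖ ^ (2 * k) *
        ‖∑ t ∈ range u, ee M (((s : ℝ) - J) * t)‖ ^ 2 : ℝ) : ℂ) := by
    push_cast
    rw [coin, h]
    refine Finset.sum_congr rfl fun s _ => ?_
    rw [norm_mul, norm_pow]
    push_cast
    ring
  exact_mod_cast h'

end Pool.Agent.MP_1c0426_nt
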