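import Mathlib

/-! Counting coincidences with additive characters, and the upper count for `B_h` sets. -/

set_option autoImplicit false

namespace Pool.Agent.MP_1c0426_nt

open Finset Complex
open scoped ComplexConjugate

/-- the character `x ↦ exp (2 π i x / M)` -/
noncomputable def ee (M : ℕ) (x : ℝ) : ℂ := Complex.exp (((2 * Real.pi * x / M : ℝ) : ℂ) * I)

theorem ee_add (M : ℕ) (x y : ℝ) : ee M (x + y) = ee M x * ee M y := by
  unfold ee
  rw [← Complex.exp_add]
  congr 1
  push_cast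
  ring

theorem ee_zero (M : ℕ) : ee M 0 = 1 := by simp [ee]

theorem norm_ee (M : ℕ) (x : ℝ) : ‖ee M x‖ = 1 := by
  unfold ee
  exact Complex.norm_exp_ofReal_mul_I _

theorem conj_ee (M : ℕ) (x : ℝ) : conj (ee M x) = ee M (-x) := by
  unfold ee
  rw [← Complex.exp_conj]
  congr 1
  rw [map_mul, Complex.conj_ofReal, Complex.conj_I]
  push_cast
  ring

theorem re_ee (M : ℕ) (x : ℝ) : (ee M x).re = Real.cos (2 * Real.pi * x / M) := by
  unfold ee
  exact Complex.exp_ofReal_mul_I_re _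

theorem ee_nat_mul (M n : ℕ) (x : ℝ) : ee M (n * x) = ee M x ^ n := by
  induction n with
  | zero => simp [ee_zero]
  | succ n ih => rw [pow_succ, ← ih, ← ee_add]; congr 1; push_cast; ring

theorem ee_sum {ι : Type} (M : ℕ) (s : Finset ι) (f : ι → ℝ) :
    ee M (∑ i ∈ s, f i) = ∏ i ∈ s, ee M (f i) := by
  classical
  induction s using Finset.induction_on with
  | empty => simp [ee_zero]
  | insert a s ha ih => rw [Finset.sum_insert ha, Finset.prod_insert ha, ee_add, ih]

theorem ee_int_self {M : ℕ} (hM : 0 < M) (d : ℤ) : ee M ((M : ℝ) * d) = 1 := by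
  unfold ee
  have : (M : ℝ) ≠ 0 := by positivity
  have e : (2 * Real.pi * ((M : ℝ) * d) / M : ℝ) = d * (2 * Real.pi) := by field_simp
  rw [e]
  have := Complex.exp_int_mul_two_pi_mul_I d
  convert this using 2
  push_cast
  ring

theorem ee_ne_one {M : ℕ} {d : ℤ} (h0 : d ≠ 0) (hd : |d| < M) : ee M d ≠ 1 := by
  have hM : (0 : ℝ) < M := by
    have : (0 : ℤ) < M := lt_of_le_of_lt (abs_nonneg _) hd
    exact_mod_cast this
  unfold ee
  intro h
  obtain ⟨n, hn⟩ := Complex.exp_eq_one_iff.1 h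
  have h2 : ((2 * Real.pi * d / M : ℝ) : ℂ) = ((n * (2 * Real.pi) : ℝ) : ℂ) := by
    have : ((2 * Real.pi * d / M : ℝ) : ℂ) * I = ((n * (2 * Real.pi) : ℝ) : ℂ) * I := by
      rw [hn]; push_cast; ring
    exact mul_right_cancel₀ Complex.I_ne_zero this
  have h3 : (2 * Real.pi * d / M : ℝ) = n * (2 * Real.pi) := by exact_mod_cast h2
  have hpi := Real.pi_pos
  have h4 : (d : ℝ) = n * M := by
    field_simp at h3
    linarith
  have h5 : d = n * M := by exact_mod_cast h4
  have hn0 : n ≠ 0 := by rintro rfl; simp at h5; exact h0 h5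
  have : (M : ℤ) ≤ |d| := by
    rw [h5, abs_mul, Nat.abs_cast]
    have : 1 ≤ |n| := Int.one_le_abs hn0
    nlinarith [Int.natCast_nonneg M]
  omega

/-- orthogonality over a full period `r - J`, `r < M` -/
theorem orth {M : ℕ} (J : ℕ) {d : ℤ} (hd : |d| < M) :
    ∑ r ∈ range M, ee M (((r : ℝ) - J) * d) = if d = 0 then (M : ℂ) else 0 := by
  have hM : 0 < M := by
    have : (0 : ℤ) < M := lt_of_le_of_lt (abs_nonneg _) hd
    exact_mod_cast this
  split_ifs with h0
  · subst h0; simp [ee_zero]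
  · have e : ∀ r : ℕ, ee M (((r : ℝ) - J) * d) = ee M (-(J : ℝ) * d) * ee M d ^ r := by
      intro r
      rw [← ee_nat_mul, ← ee_add]; congr 1; ring
    simp_rw [e]
    rw [← Finset.mul_sum, geom_sum_eq (ee_ne_one h0 hd), ← ee_nat_mul, ee_int_self hM]
    simp

/-- number of coincidences as a character sum -/
theorem energy {α β : Type} (X : Finset α) (Y : Finset β) (σ : α → ℕ) (τ : β → ℕ) {M : ℕ} (J : ℕ)
    (h : ∀ x ∈ X, ∀ y ∈ Y, |(σ x : ℤ) - τ y| < M) :
    (M : ℂ) * (((X ×ˢ Y).filter (fun p => σ p.1 = τ p.2)).card : ℕ) =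
      ∑ r ∈ range M, (∑ x ∈ X, ee M (((r : ℝ) - J) * σ x)) *
        conj (∑ y ∈ Y, ee M (((r : ℝ) - J) * τ y)) := by
  have e : ∀ r : ℕ, (∑ x ∈ X, ee M (((r : ℝ) - J) * σ x)) *
        conj (∑ y ∈ Y, ee M (((r : ℝ) - J) * τ y)) =
      ∑ p ∈ X ×ˢ Y, ee M (((r : ℝ) - J) * (((σ p.1 : ℤ) - τ p.2 : ℤ) : ℝ)) := by
    intro r
    rw [map_sum, Finset.sum_mul_sum, Finset.sum_product]
    refine Finset.sum_congr rfl fun x _ => Finset.sum_congr rfl fun y _ => ?_
    rw [conj_ee, ← ee_add]
    congr 1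
    push_cast
    ring
  simp_rw [e]
  rw [Finset.sum_comm, Finset.card_filter]
  push_cast
  rw [Finset.mul_sum]
  refine Finset.sum_congr rfl fun p hp => ?_
  have hp' := Finset.mem_product.1 hp
  have := orth J (h p.1 hp'.1 p.2 hp'.2)
  push_cast at this
  rw [this]
  by_cases hq : σ p.1 = τ p.2
  · simp [hq]
  · have : (σ p.1 : ℤ) - τ p.2 ≠ 0 := by omega
    simp [hq, this]

/-- tuples with entries in `A` -/
abbrev tup (k : ℕ) (A : Finset ℕ) : Finset (Fin k → ℕ) := Fintype.piFinset fun _ : Fin k => A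

theorem card_tup (k : ℕ) (A : Finset ℕ) : (tup k A).card = A.card ^ k := by
  simp [tup, Fintype.card_piFinset]

theorem sum_tup (M k : ℕ) (A : Finset ℕ) (ξ : ℝ) :
    ∑ a ∈ tup k A, ee M (ξ * ((∑ i, a i : ℕ) : ℝ)) = (∑ x ∈ A, ee M (ξ * x)) ^ k := by
  have : (∑ x ∈ A, ee M (ξ * x)) ^ k = ∏ _i : Fin k, ∑ x ∈ A, ee M (ξ * x) := by simp
  rw [this, Finset.prod_univ_sum]
  refine Finset.sum_congr rfl fun a _ => ?_
  rw [← ee_sum]
  congr 1
  push_cast
  rw [Finset.mul_sum]

/-- the `B_h` property -/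
def IsB (h : ℕ) (A : Finset ℕ) : Prop :=
  ∀ s t : Multiset ℕ, Multiset.card s = h → Multiset.card t = h →
    (∀ x ∈ s, x ∈ A) → (∀ x ∈ t, x ∈ A) → s.sum = t.sum → s = t

theorem card_same_multiset {k : ℕ} (S : Finset (Fin k → ℕ)) (a0 : Fin k → ℕ)
    (h : ∀ a ∈ S, (List.ofFn a : Multiset ℕ) = (List.ofFn a0 : Multiset ℕ)) :
    S.card ≤ k.factorial := by
  classical
  calc S.card ≤ (List.ofFn a0).permutations.toFinset.card := by
        refine Finset.card_le_card_of_injOn (fun a => List.ofFn a) (fun a ha => ?_) ?_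
        · simp only [Finset.mem_coe, List.mem_toFinset, List.mem_permutations]
          exact Multiset.coe_eq_coe.1 (h a ha)
        · intro a _ b _ hab
          exact List.ofFn_injective hab
    _ ≤ (List.ofFn a0).permutations.length := List.toFinset_card_le _
    _ = k.factorial := by rw [List.length_permutations, List.length_ofFn]

theorem rigid {k l : ℕ} {A : Finset ℕ} (hB : IsB (k + l) A) {a a' : Fin k → ℕ} {b b' : Fin l → ℕ}
    (ha : a ∈ tup k A) (ha' : a' ∈ tup k A) (hb : b ∈ tup l A) (hb' : b' ∈ tup l A)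
    (hd : ∀ i j, a i ≠ b j) (hs : ∑ i, a i + ∑ j, b' j = ∑ i, a' i + ∑ j, b j) :
    (List.ofFn a : Multiset ℕ) = (List.ofFn a' : Multiset ℕ) ∧
      (List.ofFn b : Multiset ℕ) = (List.ofFn b' : Multiset ℕ) := by
  classical
  simp only [tup, Fintype.mem_piFinset] at ha ha' hb hb'
  have key : (List.ofFn a : Multiset ℕ) + (List.ofFn b' : Multiset ℕ) =
      (List.ofFn a' : Multiset ℕ) + (List.ofFn b : Multiset ℕ) := by
    refine hB _ _ (by simp) (by simp) ?_ ?_ ?_
    · intro x hx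
      simp only [Multiset.mem_add, Multiset.mem_coe, List.mem_ofFn] at hx
      rcases hx with ⟨i, rfl⟩ | ⟨j, rfl⟩
      · exact ha i
      · exact hb' j
    · intro x hx
      simp only [Multiset.mem_add, Multiset.mem_coe, List.mem_ofFn] at hx
      rcases hx with ⟨i, rfl⟩ | ⟨j, rfl⟩
      · exact ha' i
      · exact hb j
    · simp only [Multiset.sum_add, Multiset.sum_coe, List.sum_ofFn]
      exact hs
  have hle : (List.ofFn a : Multiset ℕ) ≤ (List.ofFn a' : Multiset ℕ) := by
    rw [Multiset.le_iff_count]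
    intro x
    by_cases hx : x ∈ (List.ofFn a : Multiset ℕ)
    · have hxb : Multiset.count x (List.ofFn b : Multiset ℕ) = 0 := by
        rw [Multiset.count_eq_zero]
        intro hxb
        simp only [Multiset.mem_coe, List.mem_ofFn] at hx hxb
        obtain ⟨i, rfl⟩ := hx
        obtain ⟨j, hj⟩ := hxb
        exact hd i j hj.symm
      have := congrArg (Multiset.count x) key
      rw [Multiset.count_add, Multiset.count_add, hxb] at this
      omega
    · rw [Multiset.count_eq_zero.2 hx]; exact Nat.zero_le _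
  have h1 : (List.ofFn a : Multiset ℕ) = (List.ofFn a' : Multiset ℕ) :=
    Multiset.eq_of_le_of_card_le hle (by simp)
  refine ⟨h1, ?_⟩
  rw [h1] at key
  exact (add_left_cancel key).symm

end Pool.Agent.MP_1c0426_nt
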