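import Pool.Agent.MP_1c0426_nt.Count

/-! Reduction of the upper bound for `B_h` sets to a cosine moment inequality. -/

set_option autoImplicit false

namespace Pool.Agent.MP_1c0426_nt

open Finset Complex Filter
open scoped ComplexConjugate

/-- cosine moment inequality for probability measures on `[-π/k, π/k]` -/
def Good (k J : ℕ) (L : ℝ) : Prop :=
  ∀ (A : Finset ℕ) (θ : ℕ → ℝ), A.Nonempty → (∀ a ∈ A, |θ a| ≤ Real.pi / k) →
    L ≤ 1 + 2 * ∑ j ∈ range J, ((∑ a ∈ A, Real.cos ((j + 1 : ℝ) * θ a)) / A.card) ^ (2 * k)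

theorem sum_sym (f : ℝ → ℝ) (J : ℕ) :
    ∑ s ∈ range (2 * J + 1), f ((s : ℝ) - J) =
      f 0 + ∑ j ∈ range J, (f (j + 1) + f (-(j + 1))) := by
  induction J with
  | zero => simp
  | succ J ih =>
    have e : 2 * (J + 1) + 1 = (2 * J + 1) + 1 + 1 := by ring
    rw [e, Finset.sum_range_succ, Finset.sum_range_succ', Finset.sum_range_succ (n := J)]
    have e2 : ∀ s : ℕ, f (((s + 1 : ℕ) : ℝ) - ((J + 1 : ℕ) : ℝ)) = f ((s : ℝ) - J) := by
      intro s; congr 1; push_cast; ring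
    simp_rw [e2]
    rw [ih]
    have e3 : f (((0 : ℕ) : ℝ) - ((J + 1 : ℕ) : ℝ)) = f (-(J + 1)) := by congr 1; push_cast; ring
    have e4 : f (((2 * J + 1 : ℕ) : ℝ) - (J : ℝ)) = f (J + 1) := by
      congr 1; push_cast; ring
    rw [e3, e4]
    ring

theorem norm_sum_ge (M : ℕ) (A : Finset ℕ) (ξ c : ℝ) :
    |∑ a ∈ A, Real.cos (ξ * (2 * Real.pi * (a - c) / M))| ≤ ‖∑ x ∈ A, ee M (ξ * x)‖ := by
  have e : ∑ a ∈ A, Real.cos (ξ * (2 * Real.pi * (a - c) / M)) =
      (ee M (-(ξ * c)) * ∑ x ∈ A, ee M (ξ * x)).re := by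
    rw [Finset.mul_sum, Complex.re_sum]
    refine Finset.sum_congr rfl fun a _ => ?_
    rw [← ee_add, re_ee]
    congr 1
    ring
  rw [e]
  refine (Complex.abs_re_le_norm _).trans ?_
  rw [norm_mul, norm_ee, one_mul]

theorem norm_range_ge {M u J : ℕ} (hM : 0 < M) {ξ : ℝ} (hξ : |ξ| ≤ J) :
    u * (1 - (2 * Real.pi * J * u / M) ^ 2 / 2) ≤ ‖∑ t ∈ range u, ee M (ξ * t)‖ := by
  refine le_trans ?_ (Complex.re_le_norm _)
  rw [Complex.re_sum]
  have : (u : ℝ) * (1 - (2 * Real.pi * J * u / M) ^ 2 / 2) =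
      ∑ _t ∈ range u, (1 - (2 * Real.pi * J * u / M) ^ 2 / 2) := by
    rw [Finset.sum_const, Finset.card_range, nsmul_eq_mul]
  rw [this]
  refine Finset.sum_le_sum fun t ht => ?_
  rw [re_ee]
  refine le_trans ?_ Real.one_sub_sq_div_two_le_cos
  have htu : (t : ℝ) ≤ u := by exact_mod_cast (Finset.mem_range.1 ht).le
  have hM' : (0 : ℝ) < M := by exact_mod_cast hM
  have hpi := Real.pi_pos
  have h1 : |2 * Real.pi * (ξ * t) / M| ≤ 2 * Real.pi * J * u / M := by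
    rw [abs_div, abs_mul, abs_mul ξ, Nat.abs_cast, Nat.abs_cast, abs_of_pos (by positivity)]
    have : |ξ| * t ≤ J * u := mul_le_mul hξ htu (by positivity) (by positivity)
    rw [div_le_div_iff_of_pos_right hM']
    nlinarith
  have h2 : (2 * Real.pi * (ξ * t) / M) ^ 2 ≤ (2 * Real.pi * J * u / M) ^ 2 := by
    rw [← sq_abs]
    exact pow_le_pow_left₀ (abs_nonneg _) h1 2
  linarith

/-- lower bound for the number of coincidences -/
theorem card_coin_ge {k l r u n J : ℕ} {L : ℝ} (hG : Good k J L) (hk : l + r = k) (hk0 : 0 < k)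
    {A : Finset ℕ} (hA : A ⊆ Icc 1 n) (hne : A.Nonempty) (hJ : 2 * J + 1 ≤ k * n + u) {w : ℝ}
    (hw0 : 0 ≤ w) (hw : w ≤ 1 - (2 * Real.pi * J * u / (k * n + u : ℕ)) ^ 2 / 2) :
    (A.card : ℝ) ^ (2 * k) * (u * w) ^ 2 * L ≤ ((k * n + u : ℕ) : ℝ) * (coin k l r u A).card := by
  rw [card_coin_eq hk hA J]
  set M := k * n + u with hM
  have hM0 : 0 < M := by omega
  have hM' : (0 : ℝ) < M := by exact_mod_cast hM0
  have hm : (0 : ℝ) < A.card := by exact_mod_cast hne.card_pos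
  set f : ℝ → ℝ := fun ξ => ‖∑ x ∈ A, ee M (ξ * x)‖ ^ (2 * k) *
    ‖∑ t ∈ range u, ee M (ξ * t)‖ ^ 2 with hf
  have h1 : ∑ s ∈ range (2 * J + 1), f ((s : ℝ) - J) ≤ ∑ s ∈ range M, f ((s : ℝ) - J) :=
    Finset.sum_le_sum_of_subset_of_nonneg (Finset.range_mono hJ) (fun s _ _ => by
      simp only [hf]; positivity)
  refine le_trans ?_ h1
  rw [sum_sym]
  set θ : ℕ → ℝ := fun a => 2 * Real.pi * (a - n / 2) / M with hθ
  have hpi := Real.pi_pos
  have hθb : ∀ a ∈ A, |θ a| ≤ Real.pi / k := by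
    intro a ha
    have h := Finset.mem_Icc.1 (hA ha)
    have h1 : (a : ℝ) ≤ n := by exact_mod_cast h.2
    have h0 : (0 : ℝ) ≤ a := by positivity
    have hk' : (0 : ℝ) < k := by exact_mod_cast hk0
    have hkn : (k : ℝ) * n ≤ M := by rw [hM]; push_cast; linarith [Nat.cast_nonneg (α := ℝ) u]
    have hab : |(a : ℝ) - n / 2| ≤ n / 2 := by rw [abs_le]; constructor <;> linarith
    simp only [hθ]
    rw [abs_div, abs_mul, Nat.abs_cast, abs_of_pos (by positivity), div_le_div_iff₀ hM' hk']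
    have : |(a : ℝ) - n / 2| * k ≤ n / 2 * k := mul_le_mul_of_nonneg_right hab hk'.le
    nlinarith
  have hL := hG A θ hne hθb
  have key : ∀ ξ : ℝ, |ξ| ≤ J → (A.card : ℝ) ^ (2 * k) * (u * w) ^ 2 *
      ((∑ a ∈ A, Real.cos (ξ * θ a)) / A.card) ^ (2 * k) ≤ f ξ := by
    intro ξ hξ
    have b1 : (∑ a ∈ A, Real.cos (ξ * θ a)) ^ (2 * k) ≤ ‖∑ x ∈ A, ee M (ξ * x)‖ ^ (2 * k) := by
      rw [← (even_two_mul k).pow_abs]
      exact pow_le_pow_left₀ (abs_nonneg _) (norm_sum_ge M A ξ (n / 2)) _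
    have b2 : (u * w) ^ 2 ≤ ‖∑ t ∈ range u, ee M (ξ * t)‖ ^ 2 := by
      refine pow_le_pow_left₀ (by positivity) (le_trans ?_ (norm_range_ge hM0 hξ)) _
      exact mul_le_mul_of_nonneg_left hw (by positivity)
    have e : (A.card : ℝ) ^ (2 * k) * (u * w) ^ 2 *
        ((∑ a ∈ A, Real.cos (ξ * θ a)) / A.card) ^ (2 * k) =
        (∑ a ∈ A, Real.cos (ξ * θ a)) ^ (2 * k) * (u * w) ^ 2 := by
      rw [div_pow]; field_simp
    rw [e]
    exact mul_le_mul b1 b2 (by positivity) (by positivity)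
  have k0 := key 0 (by simp)
  simp only [zero_mul, Real.cos_zero, Finset.sum_const, nsmul_eq_mul, mul_one] at k0
  rw [div_self hm.ne', one_pow, mul_one] at k0
  have kj : ∀ j ∈ range J, 2 * ((A.card : ℝ) ^ (2 * k) * (u * w) ^ 2 *
      ((∑ a ∈ A, Real.cos ((j + 1 : ℝ) * θ a)) / A.card) ^ (2 * k)) ≤ f (j + 1) + f (-(j + 1)) := by
    intro j hj
    have hjJ : ((j : ℝ) + 1) ≤ J := by exact_mod_cast Finset.mem_range.1 hj
    have hab : |(j : ℝ) + 1| ≤ J := by rw [abs_of_pos (by positivity)]; exact hjJ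
    have a1 := key (j + 1) hab
    have a2 := key (-(j + 1)) (by rw [abs_neg]; exact hab)
    simp only [neg_mul, Real.cos_neg] at a2
    linarith
  have ks := Finset.sum_le_sum kj
  rw [← Finset.mul_sum, ← Finset.mul_sum] at ks
  have hP : 0 ≤ (A.card : ℝ) ^ (2 * k) * (u * w) ^ 2 := by positivity
  have := mul_le_mul_of_nonneg_left hL hP
  linarith

/-- the finite inequality -/
theorem finite_ineq {k l r u n J : ℕ} {L : ℝ} (hG : Good k J L) (hk : l + r = k) (hk0 : 0 < k)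
    {A : Finset ℕ} (hA : A ⊆ Icc 1 n) (hne : A.Nonempty) (hB : IsB (k + l) A) (hu : 0 < u)
    (hJ : 2 * J + 1 ≤ k * n + u) {w : ℝ}
    (hw0 : 0 ≤ w) (hw : w ≤ 1 - (2 * Real.pi * J * u / (k * n + u : ℕ)) ^ 2 / 2) :
    (A.card : ℝ) ^ (k + l) * (w ^ 2 * L) ≤ ((k * n + u : ℕ) : ℝ) *
      (k.factorial * l.factorial + k * l * (A.card : ℝ) ^ (k + l) / (A.card * u)) := by
  have h1 := card_coin_ge hG hk hk0 hA hne hJ hw0 hw
  have h2 : ((coin k l r u A).card : ℝ) ≤ (k.factorial * l.factorial) * ((A.card : ℝ) ^ r * u * u) +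
      k * l * ((A.card : ℝ) ^ (k - 1) * ((A.card : ℝ) ^ l * (A.card : ℝ) ^ r * u)) := by
    exact_mod_cast card_coin_le (r := r) (u := u) hB
  have hm : (0 : ℝ) < A.card := by exact_mod_cast hne.card_pos
  have hu' : (0 : ℝ) < u := by exact_mod_cast hu
  have h3 := h1.trans (mul_le_mul_of_nonneg_left h2 (by positivity))
  generalize (A.card : ℝ) = m at *
  obtain ⟨k', rfl⟩ : ∃ k', k = k' + 1 := ⟨k - 1, by omega⟩
  have hP : 0 < m ^ r * u ^ 2 := by positivity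
  refine le_of_mul_le_mul_right ?_ hP
  have e1 : m ^ (2 * (k' + 1)) = m ^ (k' + 1 + l) * m ^ r := by
    rw [← pow_add]; congr 1; omega
  rw [e1, Nat.add_sub_cancel] at h3
  convert h3 using 1
  · ring
  · field_simp
    ring

/-- the asymptotic bound -/
theorem asym {k l r J : ℕ} {L : ℝ} (hG : Good k J L) (hL : 0 < L) (hk : l + r = k) (hk0 : 0 < k)
    {ε : ℝ} (hε : 0 < ε) :
    ∀ᶠ n : ℕ in atTop, ∀ A : Finset ℕ, A ⊆ Icc 1 n → IsB (k + l) A →
      (A.card : ℝ) ^ (k + l) ≤ (k.factorial * l.factorial * (k / L) + ε) * n := by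
  have hk' : (0 : ℝ) < k := by exact_mod_cast hk0
  set F : ℝ := k.factorial * l.factorial with hF
  have hF0 : 0 < F := by positivity
  -- choose a small `δ`
  have hc : ContinuousAt (fun δ : ℝ => (F * (k / L) + ε) *
      ((1 - (2 * Real.pi * J * (2 * δ)) ^ 2 / 2) ^ 2 * L - δ) - F * (k + 2 * δ)) 0 := by fun_prop
  have hpos : (0 : ℝ) < (F * (k / L) + ε) *
      ((1 - (2 * Real.pi * J * (2 * 0)) ^ 2 / 2) ^ 2 * L - 0) - F * (k + 2 * 0) := by
    have : (F * (k / L) + ε) * ((1 - (2 * Real.pi * J * (2 * 0)) ^ 2 / 2) ^ 2 * L - 0) -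
      F * (k + 2 * 0) = ε * L := by field_simp; ring
    rw [this]; positivity
  have hc2 : ContinuousAt (fun δ : ℝ => 1 - (2 * Real.pi * J * (2 * δ)) ^ 2 / 2) 0 := by fun_prop
  have ev1 := hc.eventually (lt_mem_nhds hpos)
  have ev2 := hc2.eventually (lt_mem_nhds (show (0 : ℝ) < 1 - (2 * Real.pi * J * (2 * 0)) ^ 2 / 2 by simp))
  obtain ⟨δ, ⟨hδ1, hδ2⟩, hδ0⟩ :=
    (((ev1.and ev2).filter_mono nhdsWithin_le_nhds).and
      (self_mem_nhdsWithin (s := Set.Ioi (0 : ℝ)))).exists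
  have hδ : 0 < δ := hδ0
  set w : ℝ := 1 - (2 * Real.pi * J * (2 * δ)) ^ 2 / 2 with hw
  set C : ℝ := F * (k / L) + ε with hC
  have hC0 : 0 < C := by positivity
  -- sets below `m0` are harmless
  set m0 : ℝ := k * l * (k + 2 * δ) / δ ^ 2 + 1 with hm0
  have hm00 : 0 < m0 := by positivity
  have t1 : ∀ᶠ n : ℕ in atTop, m0 ^ (k + l) / C ≤ n :=
    tendsto_natCast_atTop_atTop.eventually_ge_atTop _
  have t2 : ∀ᶠ n : ℕ in atTop, 1 / δ ≤ n := tendsto_natCast_atTop_atTop.eventually_ge_atTop _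
  have t3 : ∀ᶠ n : ℕ in atTop, 2 * J + 1 ≤ n := eventually_ge_atTop _
  filter_upwards [t1, t2, t3] with n hn1 hn2 hn3 A hA hB
  have hn0 : (0 : ℝ) < n := by exact_mod_cast (by omega : 0 < n)
  by_cases hsm : (A.card : ℝ) ≤ m0
  · calc (A.card : ℝ) ^ (k + l) ≤ m0 ^ (k + l) := pow_le_pow_left₀ (by positivity) hsm _
      _ ≤ C * n := by rw [div_le_iff₀ hC0] at hn1; linarith
  push Not at hsm
  have hm : (0 : ℝ) < A.card := hm00.trans hsm
  have hne : A.Nonempty := Finset.card_pos.1 (by exact_mod_cast hm)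
  set u : ℕ := ⌈δ * n⌉₊ with hu
  have hδn : 1 ≤ δ * n := by rw [div_le_iff₀ hδ] at hn2; linarith
  have hu1 : δ * n ≤ u := Nat.le_ceil _
  have hu2 : (u : ℝ) ≤ 2 * δ * n := by
    have := Nat.ceil_lt_add_one (show 0 ≤ δ * n by positivity)
    linarith
  have hu0' : (0 : ℝ) < u := by linarith
  have hu0 : 0 < u := by exact_mod_cast hu0'
  have hkn : n ≤ k * n := Nat.le_mul_of_pos_left _ hk0
  have hMle : ((k * n + u : ℕ) : ℝ) ≤ (k + 2 * δ) * n := by push_cast; linarith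
  have hMge : (n : ℝ) ≤ ((k * n + u : ℕ) : ℝ) := by exact_mod_cast (by omega : n ≤ k * n + u)
  have hM0 : (0 : ℝ) < ((k * n + u : ℕ) : ℝ) := by linarith
  have hpi := Real.pi_pos
  have hwle : w ≤ 1 - (2 * Real.pi * J * u / (k * n + u : ℕ)) ^ 2 / 2 := by
    have a1 : (u : ℝ) / ((k * n + u : ℕ) : ℝ) ≤ 2 * δ := by
      rw [div_le_iff₀ hM0]
      nlinarith
    have a2 : 2 * Real.pi * J * u / (k * n + u : ℕ) ≤ 2 * Real.pi * J * (2 * δ) := by
      rw [mul_div_assoc]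
      exact mul_le_mul_of_nonneg_left a1 (by positivity)
    have a3 := pow_le_pow_left₀ (by positivity) a2 2
    rw [hw]
    linarith
  have h := finite_ineq hG hk hk0 hA hne hB hu0 (by omega) hδ2.le hwle
  generalize (A.card : ℝ) = m at *
  generalize ((k * n + u : ℕ) : ℝ) = M at *
  have hp : 0 < m ^ (k + l) := by positivity
  have b1 : M * (k * l / (m * u)) ≤ δ := by
    rw [← mul_div_assoc, div_le_iff₀ (by positivity)]
    have c1 : k * l * (k + 2 * δ) ≤ m * δ ^ 2 := by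
      have : k * l * (k + 2 * δ) / δ ^ 2 ≤ m := by linarith
      rwa [div_le_iff₀ (by positivity)] at this
    calc M * (k * l) ≤ (k + 2 * δ) * n * (k * l) :=
          mul_le_mul_of_nonneg_right hMle (by positivity)
      _ = (k * l * (k + 2 * δ)) * n := by ring
      _ ≤ (m * δ ^ 2) * n := mul_le_mul_of_nonneg_right c1 hn0.le
      _ = δ * (m * (δ * n)) := by ring
      _ ≤ δ * (m * u) := by gcongr
  have b2 : m ^ (k + l) * (w ^ 2 * L - δ) ≤ F * (k + 2 * δ) * n := by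
    have c1 : M * (F + k * l * m ^ (k + l) / (m * u)) =
        M * F + m ^ (k + l) * (M * (k * l / (m * u))) := by ring
    have c2 := mul_le_mul_of_nonneg_left b1 hp.le
    have c3 := mul_le_mul_of_nonneg_right hMle hF0.le
    rw [c1] at h
    nlinarith
  have b3 : 0 < w ^ 2 * L - δ := by
    have : 0 < C * (w ^ 2 * L - δ) := by
      have : 0 < F * (k + 2 * δ) := by positivity
      linarith
    exact (pos_iff_pos_of_mul_pos this).1 hC0
  refine le_of_mul_le_mul_right (b2.trans ?_) b3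
  have := mul_le_mul_of_nonneg_right (sub_pos.1 hδ1).le hn0.le
  linarith

end Pool.Agent.MP_1c0426_nt
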